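import Pool.Agent.N115.AN.Stm
import Pool.Agent.Y190.AN.Ram
import Pool.Agent.TH152.HY.Ext

/-!
Squarefree polynomials over the field of meromorphic functions near infinity, without constant
roots, which are ramified over sufficiently many constants outside the zeros of an auxiliary
function.
-/

set_option autoImplicit false

open Filter Topology Set Metric Polynomial

namespace Pool.Agent.N776.AN

open FF Pool.Agent.W603.BP Pool.Agent.W601.PH Pool.Agent.Y216 Pool.Agent.Y190.BV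
  Pool.Agent.W603.LV Pool.Agent.Y190.AN
open Pool.Agent.W601.SM (dF)
open Pool.Agent.W602.NC (sup le_sup sup_attained ord_deriv)
open Pool.Agent.W602.TL (sup_pos)
open Pool.Agent.TH152.HY (Calm abstract_ext)

section

variable {D : Dm}

/-- a representative which is analytic where the class is regular -/
theorem nf_rep (x : MK D) : ∃ g, ∃ hg : MeromorphicOn g D.U, cl g hg = x ∧
    ∀ (z : ℂ) (hz : z ∈ D.U), Ge (PL hz) 0 x → AnalyticAt ℂ g z := by
  obtain ⟨f, hf, rfl⟩ := cl_surj x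
  have hNF : MeromorphicNFOn (toMeromorphicNFOn f D.U) D.U :=
    meromorphicNFOn_toMeromorphicNFOn f D.U
  refine ⟨toMeromorphicNFOn f D.U, hNF.meromorphicOn, ?_, ?_⟩
  · rw [cl_eq]
    intro z hz
    filter_upwards [hf.toMeromorphicNFOn_eq_self_on_nhdsNE hz] with w hw
    exact hw
  · intro z hz hge
    rw [← (hNF hz).meromorphicOrderAt_nonneg_iff_analyticAt,
      meromorphicOrderAt_toMeromorphicNFOn hf hz]
    by_cases h0 : cl f hf = 0
    · rw [meromorphicOrderAt_eq_top_iff.2 (cl_eq_zero.1 h0 z hz)]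
      exact le_top
    · have h1 := hge.resolve_left h0
      rw [PL_cl hf hz] at h1
      obtain ⟨a, ha⟩ := WithTop.ne_top_iff_exists.1 (cl_ne_zero h0 z hz)
      rw [← ha] at h1 ⊢
      exact_mod_cast h1

theorem ge1_cl {g : ℂ → ℂ} {hg : MeromorphicOn g D.U} {z : ℂ} (hz : z ∈ D.U)
    (han : AnalyticAt ℂ g z) (h0 : g z = 0) : Ge (PL hz) 1 (cl g hg) := by
  by_cases h1 : cl g hg = 0
  · exact Or.inl h1
  · right
    have h2 := cl_ne_zero h1 z hz
    have h3 : analyticOrderAt g z ≠ 0 := fun h => (han.analyticOrderAt_eq_zero.1 h) h0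
    have h4 : analyticOrderAt g z ≠ ⊤ := by
      intro h
      apply h2
      rw [han.meromorphicOrderAt_eq, h]
      rfl
    obtain ⟨n, hn⟩ := ENat.ne_top_iff_exists.mp h4
    have h5 := ord_cl (hg := hg) hz han hn.symm
    rw [h5]
    have h6 : n ≠ 0 := by
      rintro rfl
      exact h3 hn.symm
    exact_mod_cast Nat.one_le_iff_ne_zero.2 h6

theorem ge1_sub {g : ℂ → ℂ} {hg : MeromorphicOn g D.U} {z : ℂ} (hz : z ∈ D.U)
    (han : AnalyticAt ℂ g z) : Ge (PL hz) 1 (cl g hg - algebraMap ℂ (MK D) (g z)) := by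
  have h1 : MeromorphicOn (fun w => g w - g z) D.U :=
    fun w hw => (hg w hw).sub (MeromorphicAt.const (g z) w)
  have h2 : cl g hg - algebraMap ℂ (MK D) (g z) = cl (fun w => g w - g z) h1 := by
    rw [← cl_const]
    rfl
  rw [h2]
  exact ge1_cl hz (han.fun_sub analyticAt_const) (sub_self _)

theorem rat_PL {z : ℂ} (hz : z ∈ D.U) : Pool.Agent.N115.AN.Rat (PL hz) := by
  intro x hx
  obtain ⟨g, hg, rfl, han⟩ := nf_rep x
  exact ⟨g z, ge1_sub hz (han z hz hx)⟩

end

/-- the pointwise inequality -/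
theorem pt_ineq {Pf0 D0 S E π C Cg : ℝ} {q d b κ : ℕ} (hP : 0 ≤ Pf0) (hD : 0 ≤ D0) (hS : 0 < S)
    (hE : 0 ≤ E) (hπ : 0 ≤ π) (hC : 0 ≤ C) (hCg : 0 ≤ Cg) (hκ : κ + (4 + b) * d = q)
    (h1 : Pf0 * S ^ q ≤ C * E ^ (d + d) * S ^ (d + d) * π) (h2 : π ≤ S ^ q)
    (h3 : D0 ≤ Cg * S ^ b) :
    Pf0 ^ 2 * D0 ^ d * S ^ κ ≤ C ^ 2 * Cg ^ d * E ^ (4 * d) * π := by
  have h4 : Pf0 ^ 2 * S ^ q ≤ C ^ 2 * E ^ (4 * d) * S ^ (4 * d) * π := by
    have h5 : (Pf0 * S ^ q) ^ 2 ≤ (C * E ^ (d + d) * S ^ (d + d) * π) ^ 2 :=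
      pow_le_pow_left₀ (by positivity) h1 2
    have h6 : (C * E ^ (d + d) * S ^ (d + d) * π) ^ 2 ≤
        C ^ 2 * E ^ (4 * d) * S ^ (4 * d) * π * S ^ q := by
      calc (C * E ^ (d + d) * S ^ (d + d) * π) ^ 2
          = C ^ 2 * E ^ (4 * d) * S ^ (4 * d) * π * π := by ring
        _ ≤ _ := mul_le_mul_of_nonneg_left h2 (by positivity)
    have h7 : (Pf0 ^ 2 * S ^ q) * S ^ q ≤ (C ^ 2 * E ^ (4 * d) * S ^ (4 * d) * π) * S ^ q := by
      calc (Pf0 ^ 2 * S ^ q) * S ^ q = (Pf0 * S ^ q) ^ 2 := by ring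
        _ ≤ _ := h5.trans h6
    exact le_of_mul_le_mul_right h7 (by positivity)
  have h8 : D0 ^ d ≤ Cg ^ d * S ^ (b * d) := by
    calc D0 ^ d ≤ (Cg * S ^ b) ^ d := pow_le_pow_left₀ hD h3 d
      _ = _ := by rw [mul_pow, ← pow_mul]
  have h9 : (Pf0 ^ 2 * D0 ^ d * S ^ κ) * S ^ (4 * d) ≤
      (C ^ 2 * Cg ^ d * E ^ (4 * d) * π) * S ^ (4 * d) := by
    calc (Pf0 ^ 2 * D0 ^ d * S ^ κ) * S ^ (4 * d)
        ≤ (Pf0 ^ 2 * (Cg ^ d * S ^ (b * d)) * S ^ κ) * S ^ (4 * d) := by gcongr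
      _ = Cg ^ d * (Pf0 ^ 2 * S ^ q) := by
          rw [← hκ]
          ring
      _ ≤ Cg ^ d * (C ^ 2 * E ^ (4 * d) * S ^ (4 * d) * π) :=
          mul_le_mul_of_nonneg_left h4 (by positivity)
      _ = _ := by ring
  exact le_of_mul_le_mul_right h9 (by positivity)

/-- at most `n` of the linear forms vanish -/
theorem card_zero {n p : ℕ} {u v : Fin (p + 1) → ℂ} (huv : ∀ i j, i ≠ j → u i * v j ≠ u j * v i)
    {x : Fin (n + 1) → ℂ} (hx : x ≠ 0) :
    (Finset.univ.filter fun i => evi u v i x = 0).card ≤ n := by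
  classical
  by_contra hcon
  push Not at hcon
  obtain ⟨T, hTJ, hTc⟩ := Finset.exists_subset_card_eq (n := n + 1) hcon
  refine hx (evi_zero huv (T.orderEmbOfFin hTc).injective fun r => ?_)
  have h3 := hTJ (T.orderEmbOfFin_mem hTc r)
  rw [Finset.mem_filter] at h3
  exact h3.2

/-- **AN/1.** -/
theorem ratios_minf : Pool.Agent.N115.AN.RatiosMinf := by
  classical
  intro r0 hr0 R d b hdeg hd hsq hroot p a ha hp δ hδ0 hδ1 hδ2 hgrow i
  have hR0 : R ≠ 0 := by
    rintro rfl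
    exact hroot 0 (eval_zero)
  let x : Fin (d + 1) → MK (exD r0 hr0) := fun j => R.coeff j
  have hpx : R = pol x := eq_pol hdeg.le
  have hxl : x (Fin.last d) ≠ 0 := by
    change R.coeff ((Fin.last d : Fin (d + 1)) : ℕ) ≠ 0
    rw [Fin.val_last, ← hdeg, coeff_natDegree]
    exact leadingCoeff_ne_zero.2 hR0
  obtain ⟨r1, h01, s, G, hG, hs, hGan, hGnz, hxG⟩ := primitive hr0 x fun h0 =>
    hxl (congrFun h0 _)
  let y : Fin (d + 1) → MK (exD r0 hr0) := fun j => cl (fun z => G z j) (hG j)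
  have hxy : x = fun j => s * y j := funext hxG
  have hRy : R = C s * pol y := by rw [hpx, hxy, Pool.Agent.Y216.pol_smul]
  have hyl : y (Fin.last d) ≠ 0 := by
    intro h0
    apply hxl
    rw [hxG]
    exact mul_eq_zero_of_right s h0
  have hysq : Squarefree (pol y) := by
    rw [hRy] at hsq
    exact hsq.of_mul_right
  have hyroot : ∀ b : ℂ, (pol y).eval (algebraMap ℂ (MK (exD r0 hr0)) b) ≠ 0 := by
    intro b h0
    apply hroot b
    rw [hRy, eval_mul, h0, mul_zero]
  -- the linear forms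
  let u : Fin (p + 1) → ℂ := fun _ => 1
  have huv : ∀ i j, i ≠ j → u i * a j ≠ u j * a i := by
    intro i j hij h
    simp only [u, one_mul] at h
    exact hij (ha h.symm)
  have hUM : ∀ i, MeromorphicOn (Uf u a G i) (exD r0 hr0).U := by
    intro i
    have h1 : MeromorphicOn (fun z => ∑ l, rnc d u a i l * G z l) (exD r0 hr0).U :=
      MeromorphicOn.fun_sum fun l => (MeromorphicOn.const _).fun_mul (hG l)
    exact h1
  have hrnc : ∀ i l, rnc d u a i l = a i ^ (l : ℕ) := by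
    intro i l
    simp [rnc, u]
  have hUcl : ∀ i, cl (Uf u a G i) (hUM i) =
      (pol y).eval (algebraMap ℂ (MK (exD r0 hr0)) (a i)) := by
    intro i
    have h1 := cl_lin (fun l z => G z l) hG (rnc d u a i) (hUM i)
    refine h1.trans ?_
    unfold pol
    rw [eval_finsetSum]
    refine Finset.sum_congr rfl fun l _ => ?_
    rw [eval_mul, eval_C, eval_pow, eval_X, ← map_pow, mul_comm, hrnc]
  have hUval : ∀ i z, (pol (G z)).eval (a i) = Uf u a G i z := by
    intro i z
    change _ = evi u a i (G z)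
    rw [evi_eq]
    unfold pol
    rw [eval_finsetSum]
    refine Finset.sum_congr rfl fun l _ => ?_
    rw [eval_mul, eval_C, eval_pow, eval_X, mul_comm, hrnc]
  have hUne : ∀ i, cl (Uf u a G i) (hUM i) ≠ 0 := fun i => by
    rw [hUcl]
    exact hyroot (a i)
  have hr1 : 0 < r1 := hr0.trans h01
  have hsubU : ∀ z ∈ Ext r1, z ∈ (exD r0 hr0).U := fun z hz => Ext_mono h01.le hz
  have hne_of : ∀ (f : ℂ → ℂ) (hf : MeromorphicOn f (exD r0 hr0).U), cl f hf ≠ 0 →
      ∃ z ∈ Ext r1, f z ≠ 0 := by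
    intro f hf hf0
    by_contra hcon
    push Not at hcon
    obtain ⟨z1, hz1⟩ := Ext_nonempty r1
    apply hf0
    rw [cl_eq_zero]
    refine zero_all hf (hsubU z1 hz1) ?_
    filter_upwards [nhdsWithin_le_nhds ((Ext_open r1).mem_nhds hz1)] with w hw
    exact hcon w hw
  obtain ⟨hPM, hPcl⟩ := cl_Pf G hG
  have hPne : cl (Pf G) hPM ≠ 0 := by
    rw [hPcl]
    exact res_ne_zero' (D := MDer (exD r0 hr0)) (fun x hx => MDer_eq_zero hx) hyl hysq hyroot
  -- the orders
  have hcnt : ∀ z (hz : z ∈ Ext r1), cnt (PL (hsubU z hz)) R = (PL (hsubU z hz)).ord s := by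
    intro z hz
    apply cnt_unique
    · intro j
      rw [hRy, coeff_C_mul]
      by_cases hj : j < d + 1
      · rw [coeff_pol_lt _ hj]
        have h1 : Ge (PL (hsubU z hz)) 0 (y ⟨j, hj⟩) := ge_cl _ (hGan z hz ⟨j, hj⟩)
        have h2 : Ge (PL (hsubU z hz)) ((PL (hsubU z hz)).ord s) s := Or.inr le_rfl
        have := h2.mul h1
        rwa [add_zero] at this
      · rw [coeff_pol_ge _ (by omega), mul_zero]
        exact Ge.zero
    · obtain ⟨j, hj⟩ := Function.ne_iff.1 (hGnz z hz)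
      have h1 : analyticOrderAt (fun z => G z j) z = ((0 : ℕ) : ℕ∞) := by
        rw [Nat.cast_zero, (hGan z hz j).analyticOrderAt_eq_zero]
        exact hj
      have h2 : (PL (hsubU z hz)).ord (y j) = 0 := by
        have := ord_cl (hg := hG j) (hsubU z hz) (hGan z hz j) h1
        exact_mod_cast this
      have h3 : y j ≠ 0 := by
        intro h0
        have h4 := cl_eq_zero.1 h0 z (hsubU z hz)
        have h5 : ∀ᶠ w in 𝓝[≠] z, G w j ≠ 0 :=
          nhdsWithin_le_nhds ((hGan z hz j).continuousAt.eventually_ne hj)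
        obtain ⟨w, hw1, hw2⟩ := (h4.and h5).exists
        exact hw2 hw1
      refine ⟨(j : ℕ), ?_, ?_⟩
      · rw [hRy, coeff_C_mul, coeff_pol]
        exact mul_ne_zero hs h3
      · rw [hRy, coeff_C_mul, coeff_pol, (PL (hsubU z hz)).ord_mul hs h3, h2, add_zero]
  have hord : ∀ z (hz : z ∈ Ext r1) i (b : ℕ), analyticOrderAt (Uf u a G i) z = b →
      ct (PL (hsubU z hz)) R (a i) = b := by
    intro z hz i b hb
    unfold ct
    rw [hcnt z hz, hRy, eval_mul, eval_C, ← hUcl, (PL (hsubU z hz)).ord_mul hs (hUne i),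
      ord_cl (hg := hUM i) (hsubU z hz) (evi_an (hGan z hz) i) hb]
    ring
  -- the auxiliary function
  have hsb : s ^ b ≠ 0 := pow_ne_zero b hs
  have hD1 : δ / s ^ b ≠ 0 := div_ne_zero hδ0 hsb
  have hD1ord : ∀ z (hz : z ∈ Ext r1), (PL (hsubU z hz)).ord (δ / s ^ b) =
      (PL (hsubU z hz)).ord δ - b * cnt (PL (hsubU z hz)) R := by
    intro z hz
    rw [(PL (hsubU z hz)).ord_div hδ0 hsb, (PL (hsubU z hz)).ord_pow, hcnt z hz]
  obtain ⟨D0, hD0M, hD0cl, hD0an⟩ := nf_rep (δ / s ^ b)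
  have hDan : AnalyticOnNhd ℂ D0 (Ext r1) := by
    intro z hz
    refine hD0an z (hsubU z hz) (Or.inr ?_)
    rw [hD1ord z hz]
    have := hδ1 (PL (hsubU z hz)) (rat_PL _)
    omega
  have hUan : ∀ i, AnalyticOnNhd ℂ (Uf u a G i) (Ext r1) := fun i z hz => evi_an (hGan z hz) i
  have hPan : AnalyticOnNhd ℂ (Pf G) (Ext r1) := fun z hz => Pf_an (hGan z hz)
  have hAan : AnalyticOnNhd ℂ (Pf G ^ 2 * D0 ^ d) (Ext r1) := fun z hz =>
    ((hPan z hz).pow 2).mul ((hDan z hz).pow d)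
  have hqn : d + d ≤ p + 1 := by
    have h1 : 4 * d ≤ (4 + b) * d := Nat.mul_le_mul_right d (Nat.le_add_right 4 b)
    omega
  obtain ⟨C1, hC1, hpt⟩ := Pf_point_at (n := d) huv hqn
  obtain ⟨Cg, hCg0, hCg⟩ := hgrow
  obtain ⟨κ, hκ0, hκ⟩ : ∃ κ, 0 < κ ∧ κ + (4 + b) * d = p + 1 :=
    ⟨p + 1 - (4 + b) * d, by omega, by omega⟩
  obtain ⟨Q, hQ, R0, hQ'⟩ := abstract_ext (p := p) hr1 (fun _ => 1) (κ := κ) (Nn := 4 * d) hκ0
    (C1 := C1 ^ 2 * (max 1 Cg) ^ d)
    (one_le_mul_of_one_le_of_one_le (one_le_pow₀ hC1) (one_le_pow₀ (le_max_left _ _)))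
    (U := fun i => Uf u a G i) hUan (fun i => hne_of _ (hUM i) (hUne i))
    (P := Pf G ^ 2 * D0 ^ d) hAan (by
      obtain ⟨z, hz, hz2⟩ := hne_of (Pf G * D0) (hPM.mul hD0M) (by
        rw [← cl_mul hPM hD0M]
        exact mul_ne_zero hPne (by rw [hD0cl]; exact hD1))
      rw [Pi.mul_apply] at hz2
      refine ⟨z, hz, ?_⟩
      rw [Pi.mul_apply, Pi.pow_apply, Pi.pow_apply]
      exact mul_ne_zero (pow_ne_zero _ (left_ne_zero_of_mul hz2))
        (pow_ne_zero _ (right_ne_zero_of_mul hz2))) (by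
      intro z hz ai hai
      have h2 : ((∑ i, (ai i - 1) : ℕ) : ℕ∞) ≤ analyticOrderAt (Pf G) z := by
        refine Pf_order_at huv hqn (hGan z hz) (hGnz z hz) (fun i => ai i - 1) ?_ ?_ ?_
        · intro i hi
          have h3 := (hUan i z hz).analyticOrderAt_eq_zero.2 hi
          rw [hai i] at h3
          have h4 : ai i = 0 := by exact_mod_cast h3
          omega
        · intro i
          have : ((ai i - 1 : ℕ) : ℕ∞) ≤ (ai i : ℕ∞) := by exact_mod_cast Nat.sub_le _ _
          exact this.trans (hai i).ge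
        · intro i
          have h3 := ord_deriv (hUan i z hz)
          have e2 : deriv (Uf u a G i) =ᶠ[𝓝 z] fun z => evi u a i (dF G z) := by
            filter_upwards [(hGan z hz).ev] with w hw
            exact evi_dl hw i
          rw [analyticOrderAt_congr e2] at h3
          rw [ENat.natCast_sub, Nat.cast_one, tsub_le_iff_right]
          exact (hai i).ge.trans h3
      rw [analyticOrderAt_mul ((hPan z hz).pow 2) ((hDan z hz).pow d),
        analyticOrderAt_pow (hPan z hz), analyticOrderAt_pow (hDan z hz)]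
      have h3 : ((2 * ∑ i, (ai i - 1) : ℕ) : ℕ∞) ≤ 2 • analyticOrderAt (Pf G) z := by
        rw [Nat.cast_mul, ← nsmul_eq_mul]
        exact nsmul_le_nsmul_right h2 2
      simp only [one_mul]
      by_cases hone : ∃ i, ai i = 1
      · obtain ⟨i1, hi1⟩ := hone
        have h4 := hord z hz i1 (ai i1) (hai i1)
        rw [hi1] at h4
        have h5 := hδ2 (PL (hsubU z hz)) i1 (rat_PL _) (by exact_mod_cast h4)
        have h6 : analyticOrderAt D0 z ≠ 0 := by
          intro h0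
          have h7 := ord_cl (hg := hD0M) (hsubU z hz) (hDan z hz) (a := 0) (by exact_mod_cast h0)
          rw [hD0cl, hD1ord z hz] at h7
          push_cast at h7
          omega
        have h7 : (1 : ℕ∞) ≤ analyticOrderAt D0 z := Order.one_le_iff_ne_zero.2 h6
        have h8 : ((d : ℕ) : ℕ∞) ≤ d • analyticOrderAt D0 z := by
          calc ((d : ℕ) : ℕ∞) = d • (1 : ℕ∞) := by rw [nsmul_eq_mul, mul_one]
            _ ≤ _ := nsmul_le_nsmul_right h7 d
        have h9 : ∑ i, ai i ≤ 2 * ∑ i, (ai i - 1) + d := by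
          have h10 : ∑ i, ai i ≤ ∑ i, (2 * (ai i - 1) + if evi u a i (G z) = 0 then 1 else 0) := by
            refine Finset.sum_le_sum fun i _ => ?_
            split_ifs with h
            · omega
            · have h3 := (hUan i z hz).analyticOrderAt_eq_zero.2 h
              rw [hai i] at h3
              have h4 : ai i = 0 := by exact_mod_cast h3
              omega
          rw [Finset.sum_add_distrib, ← Finset.mul_sum, ← Finset.card_filter] at h10
          have h11 := card_zero huv (hGnz z hz)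
          omega
        calc ((∑ i, ai i : ℕ) : ℕ∞) ≤ ((2 * ∑ i, (ai i - 1) + d : ℕ) : ℕ∞) := by
              exact_mod_cast h9
          _ = ((2 * ∑ i, (ai i - 1) : ℕ) : ℕ∞) + ((d : ℕ) : ℕ∞) := by rw [Nat.cast_add]
          _ ≤ _ := add_le_add h3 h8
      · have h9 : ∑ i, ai i ≤ 2 * ∑ i, (ai i - 1) := by
          rw [Finset.mul_sum]
          refine Finset.sum_le_sum fun i _ => ?_
          have : ai i ≠ 1 := fun h => hone ⟨i, h⟩
          omega
        calc ((∑ i, ai i : ℕ) : ℕ∞) ≤ ((2 * ∑ i, (ai i - 1) : ℕ) : ℕ∞) := by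
              exact_mod_cast h9
          _ ≤ _ := h3.trans le_self_add) (by
      intro z ε B hε hε1 hB hball hcalm
      have hzm : z ∈ closedBall z ε := mem_closedBall_self hε.le
      have hzE : z ∈ Ext r1 := hball hzm
      have hS : 0 < sup (Uf u a G) z := sup_pos (hcalm.1 0 z hzm)
      have hp1 := hpt G z ε B hε hε1 hB (fun w hw => hGan w (hball hw)) hcalm.1 hcalm.2
      have hD : ‖D0 z‖ ≤ max 1 Cg * sup (Uf u a G) z ^ b := by
        obtain ⟨i1, hi1⟩ := hCg (PL (hsubU z hzE)) s (pol (G z)) (D0 z) (rat_PL _) hs (by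
          intro j
          rw [hRy, coeff_C_mul, mul_div_cancel_left₀ _ hs]
          by_cases hj : j < d + 1
          · rw [coeff_pol_lt _ hj, coeff_pol_lt _ hj]
            exact ge1_sub (hg := hG ⟨j, hj⟩) (hsubU z hzE) (hGan z hzE ⟨j, hj⟩)
          · rw [coeff_pol_ge _ (by omega), coeff_pol_ge _ (by omega), map_zero, sub_zero]
            exact Ge.zero) (by
          rw [← hD0cl]
          exact ge1_sub (hsubU z hzE) (hDan z hzE)) (fun i => by
          rw [hUval]
          exact hcalm.1 i z hzm)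
        rw [hUval] at hi1
        refine hi1.trans (mul_le_mul (le_max_right _ _) ?_ (by positivity) (by positivity))
        exact pow_le_pow_left₀ (norm_nonneg _) (le_sup (Uf u a G) z i1) b
      have hπ : ∏ i, ‖Uf u a G i z‖ ≤ sup (Uf u a G) z ^ (p + 1) := by
        calc ∏ i, ‖Uf u a G i z‖ ≤ ∏ _i : Fin (p + 1), sup (Uf u a G) z :=
              Finset.prod_le_prod (fun i _ => norm_nonneg _) fun i _ => le_sup (Uf u a G) z i
          _ = _ := by simp
      have hfin := pt_ineq (norm_nonneg (Pf G z)) (norm_nonneg (D0 z)) hS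
        (by positivity : (0 : ℝ) ≤ B / ε) (Finset.prod_nonneg fun i _ => norm_nonneg
          (Uf u a G i z)) (by linarith : (0 : ℝ) ≤ C1) (by positivity : (0 : ℝ) ≤ max 1 Cg) hκ hp1
        hπ hD
      rw [Pi.mul_apply, Pi.pow_apply, Pi.pow_apply, norm_mul, norm_pow, norm_pow]
      simp only [pow_one]
      exact hfin) i
  have e : R.eval (algebraMap ℂ (MK (exD r0 hr0)) (a i)) /
      R.eval (algebraMap ℂ (MK (exD r0 hr0)) (a 0)) =
      cl (Uf u a G i / Uf u a G 0) ((hUM i).div (hUM 0)) := by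
    rw [← cl_div (hUM i) (hUM 0), hUcl, hUcl, hRy, eval_mul, eval_mul, eval_C, eval_C,
      mul_div_mul_left _ _ hs]
  rw [e]
  refine mem_of_large (R := Q) (R0 := max R0 r0) hQ fun z hz => ?_
  have hzR : R0 < ‖z‖ := lt_of_le_of_lt (le_max_left _ _) hz
  have hzU : z ∈ (exD r0 hr0).U := lt_of_le_of_lt (le_max_right R0 r0) hz
  have h2 := (meromorphicOrderAt_ne_top_iff_eventually_ne_zero (hUM 0 z hzU)).1
    (cl_ne_zero (hUne 0) z hzU)
  have h3 : ∀ᶠ w in 𝓝 z, R0 < ‖w‖ := (continuous_norm.tendsto z).eventually_const_lt hzR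
  filter_upwards [h2, nhdsWithin_le_nhds h3] with w hw1 hw2
  rw [Pi.div_apply, hQ' w hw2, mul_div_cancel_right₀ _ hw1]

end Pool.Agent.N776.AN
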